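import Mathlib
import Pool.Agent.H.MP_1940b6_co.Core

set_option autoImplicit false

namespace Pool.Agent.Results.MP_1940b6_co.NoPolarity

open Pool.Agent.H.MP_1940b6_co

/-- `(P, r)` with rank function `rk` is an abstract polyhedron. -/
def IsPolyhedron {P : Type} (r : P → P → Prop) (rk : P → ℤ) : Prop :=
  IsPartialOrder P r ∧ (∀ F G, r F G → F ≠ G → rk F < rk G) ∧ Set.range rk = Set.Icc (-1) 3 ∧
  (∃ b, ∀ F, r b F) ∧ (∃ t, ∀ F, r F t) ∧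
  (∀ Φ : Set P, IsMaxChain r Φ → Φ.ncard = 5) ∧
  (∀ F G, r F G → rk G = rk F + 2 → {H | r F H ∧ r H G ∧ rk H = rk F + 1}.ncard = 2) ∧
  ∀ Φ Ψ : Set P, IsMaxChain r Φ → IsMaxChain r Ψ →
    Relation.ReflTransGen
      (fun A B : Set P => IsMaxChain r B ∧ Φ ∩ Ψ ⊆ B ∧ (A \ B).ncard = 1) Φ Ψ

theorem result : ∃ (n : ℕ) (r : Fin n → Fin n → Prop) (rk : Fin n → ℤ) (p : ℕ),
    IsPolyhedron r rk ∧
    (∀ f, rk f = 2 → {v | rk v = 0 ∧ r v f}.ncard = p) ∧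
    (∀ v, rk v = 0 → {e | rk e = 1 ∧ r v e}.ncard = p) ∧
    (∃ δ : Fin n ≃ Fin n, ∀ F G, r F G ↔ r (δ G) (δ F)) ∧
    ∀ δ : Fin n ≃ Fin n, (∀ F G, r F G ↔ r (δ G) (δ F)) → ¬ ∀ F, δ (δ F) = F := by
  refine ⟨29, le, rk, 5, ⟨?_, rk_mono, ?_, ⟨0, bot_le'⟩, ⟨28, le_top'⟩, ?_, ?_, ?_⟩, ?_, ?_,
    ⟨⟨du, dui, du_l, du_r⟩, du_le⟩, fun δ h h2 => nopol δ h h2⟩
  · exact { refl := le_refl', trans := fun a b c h1 h2 => le_trans' a b h1 c h2,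
            antisymm := le_anti }
  · ext x
    constructor
    · rintro ⟨a, rfl⟩
      exact rk_bd a
    · rintro ⟨h1, h2⟩
      have : x = -1 ∨ x = 0 ∨ x = 1 ∨ x = 2 ∨ x = 3 := by omega
      rcases this with rfl | rfl | rfl | rfl | rfl
      exacts [⟨0, rfl⟩, ⟨1, rfl⟩, ⟨7, rfl⟩, ⟨22, rfl⟩, ⟨28, rfl⟩]
  · intro Φ h
    obtain ⟨i, rfl⟩ := max_eq Φ h
    exact fl_card i
  · intro F G h1 h2
    rw [← diamond F G h1 h2, ← Set.ncard_coe_finset]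
    congr 1; ext x; simp
  · intro Φ Ψ h1 h2
    obtain ⟨i, rfl⟩ := max_eq Φ h1
    obtain ⟨j, rfl⟩ := max_eq Ψ h2
    exact conn _ j Set.inter_subset_right _ i rfl Set.inter_subset_left
  · intro f h
    rw [← gon1 f h, ← Set.ncard_coe_finset]
    congr 1; ext x; simp
  · intro v h
    rw [← gon2 v h, ← Set.ncard_coe_finset]
    congr 1; ext x; simp

end Pool.Agent.Results.MP_1940b6_co.NoPolarity
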